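import Pool.Agent.Lib.MP_c7af3c_ag.T2.IfaceB

/-!
# MP_c7af3c_ag, project T2: the conic in the plane is integrable and equivariant (helper8)

Rows QINT and QEQ of T2/IfaceB.lean. `Fix D x P G`: the derivation `D_G` kills the coordinates of
the point and of the frame. With `Fix`, a sextic `G` is in `Fix` if and only if `G|plane` is in
`R6`; the bracket of two elements of `Fix` is in `Fix`; restriction to the plane commutes with
`D_G`.
-/

set_option autoImplicit false

namespace Pool.Agent.T2.H8

open MvPolynomial Pool.Agent.Gen Pool.Agent.Sharp Pool.Agent.Edge Pool.Agent.T2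
open Pool.Agent.Sharp.H75 (dco DG af lf)
open Pool.Agent.Edge.H65 (ssub)

section basics

variable {K : Type} [Field K]

theorem V_eq (D : D6 K) (x : Fin 5 → K) (G : MvPolynomial (Fin 5) K) (p : Fin 5) :
    D.V x 0 G p = der D G (x p) := by
  have h := H75.VT_apply D x (fun _ => G) p
  rw [H75.VT_eq, Finset.sum_apply, Fin.sum_univ_one] at h
  exact h

theorem der_add (D : D6 K) (G H : MvPolynomial (Fin 5) K) (f : K) :
    der D (G + H) f = der D G f + der D H f :=
  H75.DG_add D (fun _ => G) (fun _ => H) f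

theorem der_sub (D : D6 K) (G H : MvPolynomial (Fin 5) K) (f : K) :
    der D (G - H) f = der D G f - der D H f :=
  H75.DG_sub D (fun _ => G) (fun _ => H) f

theorem der_smul (D : D6 K) (a : K) (G : MvPolynomial (Fin 5) K) (f : K) :
    der D (a • G) f = a * der D G f :=
  H75.DG_smul D a (fun _ => G) f

theorem der_zero (D : D6 K) (f : K) : der D 0 f = 0 :=
  H75.DG_zero D f

theorem dco_F (D : D6 K) {G : MvPolynomial (Fin 5) K} (hG : G.IsHomogeneous 6) :
    dco (der D G) (D.F 0) = G :=
  H75.dco_F D (G := fun _ => G) (fun _ => hG) 0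

theorem der_comm {D : D6 K} (hc : Lines.Comm D) {G H : MvPolynomial (Fin 5) K}
    (hG : G.IsHomogeneous 6) (hH : H.IsHomogeneous 6) (f : K) :
    der D G (der D H f) - der D H (der D G f) =
      der D (dco (der D G) H - dco (der D H) G) f :=
  H75.DG_comm (D := D) (fun m I m' J _ _ f => hc m I m' J f) (G := fun _ => G) (H := fun _ => H)
    (fun _ => hG) (fun _ => hH) f

/-- the form moves neither the point nor the frame -/
def Fix (D : D6 K) (x : Fin 5 → K) (P : Fin 3 → Fin 5 → K) (G : MvPolynomial (Fin 5) K) : Prop :=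
  (∀ f, der D G (x f) = 0) ∧ ∀ i f, der D G (P i f) = 0

variable {D : D6 K} {x : Fin 5 → K} {t : Fin 3 → Fin 5} {P : Fin 3 → Fin 5 → K}

theorem Fix.sub {G H : MvPolynomial (Fin 5) K} (hG : Fix D x P G) (hH : Fix D x P H) :
    Fix D x P (G - H) :=
  ⟨fun f => by rw [der_sub, hG.1, hH.1, sub_zero],
    fun i f => by rw [der_sub, hG.2, hH.2, sub_zero]⟩

theorem Fix.add {G H : MvPolynomial (Fin 5) K} (hG : Fix D x P G) (hH : Fix D x P H) :
    Fix D x P (G + H) :=
  ⟨fun f => by rw [der_add, hG.1, hH.1, add_zero],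
    fun i f => by rw [der_add, hG.2, hH.2, add_zero]⟩

theorem ssub_rename (hP : ∀ i j, P i (t j) = if i = j then 1 else 0)
    (g : MvPolynomial (Fin 3) K) : ssub P (rename t g) = g := by
  unfold ssub
  rw [aeval_rename]
  have h : ((fun j => ∑ i, C (P i j) * X i) ∘ t : Fin 3 → MvPolynomial (Fin 3) K) = X := by
    funext j
    rw [Function.comp_apply, Finset.sum_eq_single j]
    · rw [hP, if_pos rfl, C_1, one_mul]
    · intro i _ hi
      rw [hP, if_neg hi, C_0, zero_mul]
    · intro h; exact absurd (Finset.mem_univ _) h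
  rw [h]
  exact aeval_X_left_apply g

theorem mem_R6 {g : MvPolynomial (Fin 3) K} :
    g ∈ R6 D x t P ↔ g.IsHomogeneous 6 ∧ Fix D x P (rename t g) := by
  constructor
  · rintro ⟨h1, h2, h3⟩
    refine ⟨h1, fun f => ?_, fun i f => ?_⟩
    · rw [← V_eq, h2]; rfl
    · rw [← V_eq, h3]; rfl
  · rintro ⟨h1, h2, h3⟩
    refine ⟨h1, ?_, fun i => ?_⟩
    · funext f
      rw [V_eq, h2]; rfl
    · funext f
      rw [V_eq, h3]; rfl

theorem fix_of_zero (h : Pl D x t P) {G : MvPolynomial (Fin 5) K} (hG : G.IsHomogeneous 6)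
    (h0 : ssub P G = 0) : Fix D x P G := by
  obtain ⟨h1, h2⟩ := h.int G hG h0
  refine ⟨fun f => ?_, fun i f => ?_⟩
  · rw [← V_eq, h1]; rfl
  · rw [← V_eq, h2]; rfl

theorem rename_hom {g : MvPolynomial (Fin 3) K} {e : ℕ} (hg : g.IsHomogeneous e) :
    (rename t g).IsHomogeneous e := hg.rename_isHomogeneous

/-- a sextic fixes the point and the frame iff its restriction is in `R6` -/
theorem fix_iff (h : Pl D x t P) {G : MvPolynomial (Fin 5) K} (hG : G.IsHomogeneous 6) :
    Fix D x P G ↔ ssub P G ∈ R6 D x t P := by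
  have hs : (ssub P G).IsHomogeneous 6 := H65.ssub_hom P hG
  have hr : (rename t (ssub P G)).IsHomogeneous 6 := rename_hom hs
  have h0 : ssub P (G - rename t (ssub P G)) = 0 := by
    rw [map_sub, ssub_rename h.Pt, sub_self]
  have hf := fix_of_zero h (hG.sub hr) h0
  rw [mem_R6]
  constructor
  · intro hF
    refine ⟨hs, ?_⟩
    have := hF.sub hf
    rwa [sub_sub_cancel] at this
  · rintro ⟨_, hF⟩
    have := hf.add hF
    rwa [sub_add_cancel] at this

/-- restriction to a plane which is not moved -/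
theorem ssub_dco {G : MvPolynomial (Fin 5) K} (hG : Fix D x P G) (H : MvPolynomial (Fin 5) K) :
    ssub P (dco (der D G) H) = dco (der D G) (ssub P H) := by
  rw [H65.dco_ssub]
  have h : ∑ p, ssub P (pderiv p H) * ∑ i, C (der D G (P i p)) * X i = 0 := by
    refine Finset.sum_eq_zero fun p _ => ?_
    have : ∑ i, C (der D G (P i p)) * X i = (0 : MvPolynomial (Fin 3) K) := by
      refine Finset.sum_eq_zero fun i _ => ?_
      rw [hG.2, C_0, zero_mul]
    rw [this, mul_zero]
  rw [h, add_zero]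

/-- the bracket of two forms which fix the point and the frame -/
theorem bracket (h : Pl D x t P) {G H : MvPolynomial (Fin 5) K} (hG : G.IsHomogeneous 6)
    (hH : H.IsHomogeneous 6) (fG : Fix D x P G) (fH : Fix D x P H) :
    dco (der D G) (ssub P H) - dco (der D H) (ssub P G) ∈ R6 D x t P := by
  rw [← ssub_dco fG, ← ssub_dco fH, ← map_sub]
  refine (fix_iff h ((H75.dco_hom _ hH).sub (H75.dco_hom _ hG))).1 ⟨fun f => ?_, fun i f => ?_⟩
  · rw [← der_comm h.comm hG hH, fG.1, fH.1, map_zero, map_zero, sub_zero]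
  · rw [← der_comm h.comm hG hH, fG.2, fH.2, map_zero, map_zero, sub_zero]

theorem mul_mem_mulS {q a : MvPolynomial (Fin 3) K} {r : ℕ} (ha : a.IsHomogeneous r) :
    q * a ∈ mulS q r := mem_mulS.2 ⟨a, ha, rfl⟩

/-- the bracket of two forms with restrictions `q A`, `q A'` -/
theorem bracket_q (h : Pl D x t P) {q : MvPolynomial (Fin 3) K} (hq : mulS q 4 ≤ R6 D x t P)
    {G H : MvPolynomial (Fin 5) K} (hG : G.IsHomogeneous 6) (hH : H.IsHomogeneous 6)
    {A A' : MvPolynomial (Fin 3) K} (hA : A.IsHomogeneous 4) (hA' : A'.IsHomogeneous 4)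
    (gG : ssub P G = q * A) (gH : ssub P H = q * A') :
    dco (der D G) q * A' - dco (der D H) q * A ∈ R6 D x t P := by
  have fG : Fix D x P G := (fix_iff h hG).2 (gG ▸ hq (mul_mem_mulS hA))
  have fH : Fix D x P H := (fix_iff h hH).2 (gH ▸ hq (mul_mem_mulS hA'))
  have h1 := bracket h hG hH fG fH
  rw [gG, gH, H75.dco_mul, H75.dco_mul] at h1
  have h2 := hq (mul_mem_mulS (q := q) (H75.dco_hom (der D G) hA'))
  have h3 := hq (mul_mem_mulS (q := q) (H75.dco_hom (der D H) hA))
  have h4 := (R6 D x t P).add_mem ((R6 D x t P).sub_mem h1 h2) h3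
  have h5 : dco (der D G) q * A' - dco (der D H) q * A =
      dco (der D G) q * A' + q * dco (der D G) A' - (dco (der D H) q * A + q * dco (der D H) A) -
        q * dco (der D G) A' + q * dco (der D H) A := by ring
  rw [h5]
  exact h4

/-- `A ↦ D_{qA} q` -/
noncomputable def beta (D : D6 K) (t : Fin 3 → Fin 5) (q : MvPolynomial (Fin 3) K) :
    MvPolynomial (Fin 3) K →ₗ[K] MvPolynomial (Fin 3) K where
  toFun A := dco (der D (rename t (q * A))) q
  map_add' A B := by
    ext J
    rw [H75.coeff_dco, coeff_add, H75.coeff_dco, H75.coeff_dco, mul_add, map_add, der_add]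
  map_smul' a A := by
    ext J
    rw [H75.coeff_dco, RingHom.id_apply, coeff_smul, H75.coeff_dco, mul_smul_comm, map_smul,
      der_smul, smul_eq_mul]

end basics

/-- Row QINT. -/
theorem qint : QintStatement := by
  intro hU hB K _ _ _ D x t P h hR q hq hq0 hqR G hG hGq
  obtain ⟨A, hA, hAG⟩ := mem_mulS.1 hGq
  have hqA : (q * A).IsHomogeneous 6 := hq.mul hA
  -- the form `G - q A`
  have hr : (rename t (q * A)).IsHomogeneous 6 := rename_hom hqA
  have hG1 : (G - rename t (q * A)).IsHomogeneous 6 := hG.sub hr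
  have hG0 : ssub P (G - rename t (q * A)) = q * 0 := by
    rw [map_sub, ssub_rename h.Pt, ← hAG, sub_self, mul_zero]
  have h1 : mulS (dco (der D (G - rename t (q * A))) q) 4 ≤ R6 D x t P := by
    intro g hg
    obtain ⟨B, hB1, rfl⟩ := mem_mulS.1 hg
    have h2 := bracket_q h hqR hG1 (rename_hom (t := t) (hq.mul hB1)) (isHomogeneous_zero _ _ _)
      hB1 hG0 (ssub_rename h.Pt _)
    rwa [mul_zero, sub_zero] at h2
  obtain ⟨c1, hc1⟩ := hU K (R6 D x t P) hR q _ hq (H75.dco_hom _ hq) hq0 hqR h1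
  obtain ⟨c2, hc2⟩ := hB hU K (R6 D x t P) hR q hq hq0 hqR (beta D t q)
    (fun B _ => H75.dco_hom _ hq)
    (fun B B' hB1 hB2 => bracket_q h hqR (rename_hom (t := t) (hq.mul hB1))
      (rename_hom (t := t) (hq.mul hB2)) hB1 hB2 (ssub_rename h.Pt _) (ssub_rename h.Pt _)) A hA
  refine ⟨c1 + c2, ?_⟩
  have h3 : dco (der D G) q = dco (der D (G - rename t (q * A))) q +
      dco (der D (rename t (q * A))) q := by
    ext J
    rw [coeff_add, H75.coeff_dco, H75.coeff_dco, H75.coeff_dco, ← der_add, sub_add_cancel]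
  rw [h3, hc1, map_add, add_mul]
  congr 1

/-! ### QEQ -/

section qeq

variable {K : Type} [Field K]

theorem af_mul {n : ℕ} (A : Fin (n + 1) → Fin (n + 1) → K)
    (F G : MvPolynomial (Fin (n + 1)) K) : af A (F * G) = af A F * G + F * af A G := by
  unfold af
  rw [Finset.sum_mul, Finset.mul_sum, ← Finset.sum_add_distrib]
  refine Finset.sum_congr rfl fun p _ => ?_
  rw [Derivation.leibniz]
  simp only [smul_eq_mul]
  ring

variable {D : D6 K} {x : Fin 5 → K} {t : Fin 3 → Fin 5} {P : Fin 3 → Fin 5 → K}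

theorem ssub_lf (a : Fin 5 → K) :
    ssub P (H75.lf a) = ∑ i, C (∑ r, a r * P i r) * X i := by
  unfold H75.lf
  rw [map_sum]
  have h : ∀ q, ssub P (C (a q) * X q) = ∑ i, C (a q * P i q) * X i := by
    intro q
    rw [map_mul, H65.ssub_C, H65.ssub_X, Finset.mul_sum]
    refine Finset.sum_congr rfl fun i _ => ?_
    rw [map_mul, mul_assoc]
  simp only [h]
  rw [Finset.sum_comm]
  refine Finset.sum_congr rfl fun i _ => ?_
  rw [map_sum, Finset.sum_mul]

/-- the vector field of `E` on the plane -/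
theorem field_eq (δ : Derivation ℤ K K) (E : Fin 5 → Fin 5 → K) (M : Fin 3 → Fin 3 → K)
    (hP : ∀ i f, δ (P i f) + ∑ q, E f q * P i q = ∑ j, M j i * P j f)
    (H : MvPolynomial (Fin 5) K) :
    ssub P (dco δ H - af E H) = dco δ (ssub P H) - af M (ssub P H) := by
  rw [map_sub, H65.dco_ssub]
  have h0 : ssub P (af E H) = ∑ p, ssub P (pderiv p H) * ssub P (H75.lf (E p)) := by
    unfold af
    rw [map_sum]
    exact Finset.sum_congr rfl fun p _ => by rw [map_mul, mul_comm]
  have h1 : af M (ssub P H) =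
      ∑ p, ssub P (pderiv p H) * ∑ i, C (∑ j, M j i * P j p) * X i := by
    unfold af
    have h2 : ∀ j : Fin 3, H75.lf (M j) * pderiv j (ssub P H) =
        ∑ p, ssub P (pderiv p H) * ∑ i, C (M j i * P j p) * X i := by
      intro j
      rw [H65.pderiv_ssub, Finset.mul_sum]
      refine Finset.sum_congr rfl fun p _ => ?_
      unfold H75.lf
      rw [Finset.sum_mul, Finset.mul_sum]
      refine Finset.sum_congr rfl fun i _ => ?_
      rw [map_mul]
      ring
    rw [Finset.sum_congr rfl fun j _ => h2 j, Finset.sum_comm]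
    refine Finset.sum_congr rfl fun p _ => ?_
    rw [← Finset.mul_sum, Finset.sum_comm]
    congr 1
    refine Finset.sum_congr rfl fun i _ => ?_
    rw [map_sum, Finset.sum_mul]
  have h2 : ∑ p, ssub P (pderiv p H) * ∑ i, C (δ (P i p)) * X i +
      ∑ p, ssub P (pderiv p H) * ssub P (H75.lf (E p)) =
      ∑ p, ssub P (pderiv p H) * ∑ i, C (∑ j, M j i * P j p) * X i := by
    rw [← Finset.sum_add_distrib]
    refine Finset.sum_congr rfl fun p _ => ?_
    rw [ssub_lf, ← mul_add, ← Finset.sum_add_distrib]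
    congr 1
    refine Finset.sum_congr rfl fun i _ => ?_
    rw [← add_mul, ← map_add, hP i p]
  rw [h0, h1]
  linear_combination -h2

/-- the derivative of the product with a vector which is not moved -/
theorem der_dot (δ : Derivation ℤ K K) (a z : Fin 5 → K) (hz : ∀ f, δ (z f) = 0) :
    δ (∑ q, a q * z q) = ∑ q, δ (a q) * z q := by
  rw [map_sum]
  refine Finset.sum_congr rfl fun r _ => ?_
  rw [Derivation.leibniz, hz]
  simp only [smul_eq_mul]
  rw [mul_zero, zero_add, mul_comm]

/-- the form `D_{E F} H - E H` fixes the point and the frame -/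
theorem fixZ [CharZero K] (hC : PcanStatement) (h : Pl D x t P) (E : Fin 5 → Fin 5 → K)
    {H : MvPolynomial (Fin 5) K} (hH : H.IsHomogeneous 6) (fH : Fix D x P H) :
    Fix D x P (dco (der D (af E (D.F 0))) H - af E H) := by
  have hEF : (af E (D.F 0)).IsHomogeneous 6 := H75.af_hom _ (D.hom 0)
  have hB : dco (der D H) (af E (D.F 0)) = af (fun p r => der D H (E p r)) (D.F 0) + af E H := by
    rw [H75.dco_af, dco_F D hH]
  have hcomm : ∀ f, der D (dco (der D (af E (D.F 0))) H - af E H) f =
      der D (af E (D.F 0)) (der D H f) - der D H (der D (af E (D.F 0)) f) +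
        der D (af (fun p r => der D H (E p r)) (D.F 0)) f := by
    intro f
    rw [der_comm h.comm hEF hH f, hB, ← der_add, sub_add_eq_sub_sub_swap, sub_add_cancel]
  obtain ⟨c1, c2⟩ := hC K D x t P h E
  obtain ⟨d1, d2⟩ := hC K D x t P h fun p r => der D H (E p r)
  refine ⟨fun f => ?_, fun i f => ?_⟩
  · have e1 := c1 f
    have e2 := d1 f
    rw [V_eq] at e1 e2
    rw [hcomm, fH.1, map_zero]
    have e3 : der D (af E (D.F 0)) (x f) =
        (∑ q, E (t 0) q * x q) * x f - ∑ q, E f q * x q := by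
      rw [← e1]; ring
    rw [e3, map_sub, Derivation.leibniz, der_dot _ _ _ fH.1, der_dot _ _ _ fH.1, fH.1]
    simp only [smul_eq_mul]
    linear_combination e2
  · have e1 := c2 i f
    have e2 := d2 i f
    rw [V_eq] at e1 e2
    rw [hcomm, fH.2, map_zero]
    have e3 : der D (af E (D.F 0)) (P i f) =
        ∑ j, mat t P E j i * P j f - ∑ q, E f q * P i q := by
      rw [← e1]; ring
    have e5 : der D H (∑ j, mat t P E j i * P j f) =
        ∑ j, mat t P (fun p r => der D H (E p r)) j i * P j f := by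
      rw [map_sum]
      refine Finset.sum_congr rfl fun j _ => ?_
      rw [Derivation.leibniz, fH.2]
      unfold mat
      rw [der_dot _ _ _ (fH.2 i)]
      simp only [smul_eq_mul]
      rw [mul_zero, zero_add, mul_comm]
    rw [e3, map_sub, der_dot _ _ _ (fH.2 i), e5]
    linear_combination e2

end qeq

/-- Row QEQ. -/
theorem qeq : QeqStatement := by
  intro hU hC K _ _ D x t P h hR q hq hq0 hqR E
  refine hU K (R6 D x t P) hR q _ hq ((H75.dco_hom _ hq).sub (H75.af_hom _ hq)) hq0 hqR ?_
  intro g hg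
  obtain ⟨A, hA, rfl⟩ := mem_mulS.1 hg
  have hqA : (q * A).IsHomogeneous 6 := hq.mul hA
  have hHh : (rename t (q * A)).IsHomogeneous 6 := rename_hom hqA
  have hs : ssub P (rename t (q * A)) = q * A := ssub_rename h.Pt _
  have fH : Fix D x P (rename t (q * A)) :=
    (fix_iff h hHh).2 (by rw [hs]; exact hqR (mul_mem_mulS hA))
  have fZ := fixZ hC h E hHh fH
  have hZ := (H75.dco_hom (der D (af E (D.F 0))) hHh).sub (H75.af_hom E hHh)
  have h2 := (fix_iff h hZ).1 fZ
  have hf := field_eq (P := P) (der D (af E (D.F 0))) E (mat t P E)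
    (fun i f => by rw [← V_eq]; exact (hC K D x t P h E).2 i f) (rename t (q * A))
  rw [hf, hs, H75.dco_mul, af_mul] at h2
  have h3 : (dco (der D (af E (D.F 0))) A - af (mat t P E) A).IsHomogeneous 4 :=
    (H75.dco_hom _ hA).sub (H75.af_hom _ hA)
  have h4 := (R6 D x t P).sub_mem h2 (hqR (mul_mem_mulS (q := q) h3))
  convert h4 using 1
  ring

end Pool.Agent.T2.H8
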