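import Pool.Agent.Lib.MP_c7af3c_ag.T2.IfaceB

/-!
# MP_c7af3c_ag, project T2: conics with a point over an algebraically closed field (helper8)

Row QCL of T2/IfaceB.lean.
-/

set_option autoImplicit false

namespace Pool.Agent.T2.H8

open MvPolynomial Pool.Agent.Edge Pool.Agent.T2
open Pool.Agent.Edge.H65 (ssub)

section

variable {K : Type} [Field K]

/-- linear independence and determinant -/
theorem li_iff (g : Fin 3 → Fin 3 → K) :
    LinearIndependent K g ↔ (Matrix.of g).det ≠ 0 := by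
  have h := Matrix.linearIndependent_rows_iff_isUnit (A := Matrix.of g)
  rw [Matrix.isUnit_iff_isUnit_det, isUnit_iff_ne_zero] at h
  exact h

/-- two substitutions -/
theorem ssub_ssub (g g' : Fin 3 → Fin 3 → K) (q : MvPolynomial (Fin 3) K) :
    ssub g' (ssub g q) = ssub (fun k j => ∑ i, g' k i * g i j) q := by
  have h : (ssub g').comp (ssub g) = ssub (n := 2) (fun k j => ∑ i, g' k i * g i j) := by
    refine MvPolynomial.algHom_ext fun j => ?_
    rw [AlgHom.comp_apply, H65.ssub_X, H65.ssub_X, map_sum]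
    have h1 : ∀ i, ssub g' (C (g i j) * X i) = ∑ k, C (g' k i * g i j) * X k := by
      intro i
      rw [map_mul, H65.ssub_C, H65.ssub_X, Finset.mul_sum]
      refine Finset.sum_congr rfl fun k _ => ?_
      rw [map_mul]
      ring
    rw [Finset.sum_congr rfl fun i _ => h1 i, Finset.sum_comm]
    refine Finset.sum_congr rfl fun k _ => ?_
    rw [map_sum, Finset.sum_mul]
  exact congrArg (fun φ => φ q) h

theorem ssub_one (q : MvPolynomial (Fin 3) K) :
    ssub (fun k j : Fin 3 => if k = j then (1 : K) else 0) q = q := by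
  have h : ssub (n := 2) (fun k j : Fin 3 => if k = j then (1 : K) else 0) =
      AlgHom.id K (MvPolynomial (Fin 3) K) := by
    refine MvPolynomial.algHom_ext fun j => ?_
    rw [H65.ssub_X, AlgHom.id_apply, Finset.sum_eq_single j]
    · rw [if_pos rfl, C_1, one_mul]
    · intro i _ hi
      rw [if_neg hi, C_0, zero_mul]
    · intro h; exact absurd (Finset.mem_univ _) h
  rw [h]
  rfl

theorem eval_ssub (g : Fin 3 → Fin 3 → K) (u : Fin 3 → K) (q : MvPolynomial (Fin 3) K) :
    eval u (ssub g q) = eval (fun j => ∑ i, u i * g i j) q := by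
  have h : (aeval u).comp (ssub g) = aeval (R := K) (fun j => ∑ i, u i * g i j) := by
    refine MvPolynomial.algHom_ext fun j => ?_
    rw [AlgHom.comp_apply, H65.ssub_X, aeval_X, map_sum]
    refine Finset.sum_congr rfl fun i _ => ?_
    rw [map_mul, aeval_C, aeval_X, Algebra.algebraMap_self, RingHom.id_apply, mul_comm]
  have h1 := congrArg (fun φ => φ q) h
  simp only [AlgHom.comp_apply] at h1
  exact h1

theorem ssub_ne {g : Fin 3 → Fin 3 → K} (hg : LinearIndependent K g)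
    {q : MvPolynomial (Fin 3) K} (hq : q ≠ 0) : ssub g q ≠ 0 := by
  intro h0
  have hdet : IsUnit (Matrix.of g).det := isUnit_iff_ne_zero.2 ((li_iff g).1 hg)
  have h1 : (Matrix.of g)⁻¹ * Matrix.of g = 1 := Matrix.nonsing_inv_mul _ hdet
  have h2 := ssub_ssub g (fun k i => (Matrix.of g)⁻¹ k i) q
  rw [h0, map_zero] at h2
  have h3 : (fun k j => ∑ i, (Matrix.of g)⁻¹ k i * g i j) =
      fun k j : Fin 3 => if k = j then (1 : K) else 0 := by
    funext k j
    have h4 := congrFun (congrFun h1 k) j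
    rw [Matrix.mul_apply, Matrix.one_apply] at h4
    exact h4
  rw [h3, ssub_one] at h2
  exact hq h2.symm

/-- the conclusion -/
def Good (q : MvPolynomial (Fin 3) K) (y : Fin 3 → K) : Prop :=
  ∃ g : Fin 3 → Fin 3 → K, LinearIndependent K g ∧ y = g 0 ∧
    ∃ a : K, a ≠ 0 ∧ (ssub g q = C a * (X 0 * X 2 - X 1 ^ 2) ∨ ssub g q = C a * (X 0 * X 2) ∨
      ssub g q = C a * (X 1 * X 2) ∨ ssub g q = C a * X 2 ^ 2)

theorem good_comp {q : MvPolynomial (Fin 3) K} (g : Fin 3 → Fin 3 → K)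
    (hg : LinearIndependent K g) (h : Good (ssub g q) ![1, 0, 0]) : Good q (g 0) := by
  obtain ⟨g', h1, h2, a, ha, h3⟩ := h
  refine ⟨fun k j => ∑ i, g' k i * g i j, ?_, ?_, a, ha, ?_⟩
  · rw [li_iff] at hg h1 ⊢
    have h4 : Matrix.of (fun k j => ∑ i, g' k i * g i j) = Matrix.of g' * Matrix.of g := by
      ext k j
      rw [Matrix.mul_apply]
      rfl
    rw [h4, Matrix.det_mul]
    exact mul_ne_zero h1 hg
  · funext j
    change g 0 j = ∑ i, g' 0 i * g i j
    rw [← h2, Fin.sum_univ_three]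
    simp
  · rw [← ssub_ssub]
    exact h3

/-- normal form of a quadratic form -/
theorem quad [CharZero K] {q : MvPolynomial (Fin 3) K} (hq : q.IsHomogeneous 2) :
    ∃ a b c d e f : K, q = C a * X 0 ^ 2 + C b * X 1 ^ 2 + C c * X 2 ^ 2 + C d * (X 0 * X 1) +
      C e * (X 0 * X 2) + C f * (X 1 * X 2) := by
  have h1 := hq.sum_X_mul_pderiv
  have h2 : ∀ i, ∃ A : Fin 3 → K, pderiv i q = ∑ j, C (A j) * X j := by
    intro i
    have h3 : (pderiv i q).IsHomogeneous 1 := hq.pderiv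
    rw [← mem_homogeneousSubmodule, homogeneousSubmodule_one_eq_span_X] at h3
    obtain ⟨A, hA⟩ := (Submodule.mem_span_range_iff_exists_fun K).1 h3
    exact ⟨A, by rw [← hA]; exact Finset.sum_congr rfl fun i _ => by rw [smul_eq_C_mul]⟩
  choose A hA using h2
  simp only [hA, Fin.sum_univ_three] at h1
  have h5 : (C (2⁻¹ : K) : MvPolynomial (Fin 3) K) * 2 = 1 := by
    have h6 : (2 : MvPolynomial (Fin 3) K) = C 2 := by rw [map_ofNat]
    rw [h6, ← C_mul, inv_mul_cancel₀ two_ne_zero, C_1]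
  refine ⟨2⁻¹ * A 0 0, 2⁻¹ * A 1 1, 2⁻¹ * A 2 2, 2⁻¹ * (A 0 1 + A 1 0), 2⁻¹ * (A 0 2 + A 2 0),
    2⁻¹ * (A 1 2 + A 2 1), ?_⟩
  simp only [map_mul, map_add]
  rw [nsmul_eq_mul] at h1
  push_cast at h1
  linear_combination (-q) * h5 - C (2⁻¹ : K) * h1

theorem good_step {q q' : MvPolynomial (Fin 3) K} (g : Fin 3 → Fin 3 → K)
    (hg : (Matrix.of g).det ≠ 0) (h0 : g 0 = ![1, 0, 0]) (hq : ssub g q = q')
    (h : Good q' ![1, 0, 0]) : Good q ![1, 0, 0] := by
  rw [← h0]
  exact good_comp g ((li_iff g).2 hg) (hq ▸ h)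

theorem good_id {q : MvPolynomial (Fin 3) K} {a : K} (ha : a ≠ 0)
    (h : q = C a * (X 0 * X 2 - X 1 ^ 2) ∨ q = C a * (X 0 * X 2) ∨
      q = C a * (X 1 * X 2) ∨ q = C a * X 2 ^ 2) : Good q ![1, 0, 0] := by
  refine ⟨fun k j => if k = j then 1 else 0, (li_iff _).2 ?_, ?_, a, ha, ?_⟩
  · have h1 : Matrix.of (fun k j : Fin 3 => if k = j then (1 : K) else 0) = 1 := by
      ext k j
      rw [Matrix.one_apply]
      rfl
    rw [h1, Matrix.det_one]
    exact one_ne_zero
  · funext j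
    fin_cases j <;> simp
  · rw [ssub_one]
    exact h

theorem n1 [CharZero K] [IsAlgClosed K] (b : K) :
    Good (X 0 * X 2 + C b * X 1 ^ 2 : MvPolynomial (Fin 3) K) ![1, 0, 0] := by
  by_cases hb : b = 0
  · refine good_id one_ne_zero (Or.inr (Or.inl ?_))
    rw [hb, C_0, C_1]
    ring
  · obtain ⟨s, hs⟩ := IsAlgClosed.exists_eq_mul_self (-b⁻¹)
    have hs0 : s ≠ 0 := by
      intro h
      rw [h, mul_zero, neg_eq_zero, inv_eq_zero] at hs
      exact hb hs
    refine good_step (q' := C 1 * (X 0 * X 2 - X 1 ^ 2)) ![![1, 0, 0], ![0, s, 0], ![0, 0, 1]]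
      ?_ rfl ?_ (good_id one_ne_zero (Or.inl rfl))
    · simpa [Matrix.det_fin_three] using hs0
    · have h1 : (C b * C s * C s : MvPolynomial (Fin 3) K) = -1 := by
        rw [← C_mul, ← C_mul, mul_assoc, ← hs, mul_neg, mul_inv_cancel₀ hb, C_neg, C_1]
      simp only [map_add, map_mul, map_pow, H65.ssub_C, H65.ssub_X, Fin.sum_univ_three]
      simp
      linear_combination X 1 ^ 2 * h1

theorem n2 [CharZero K] [IsAlgClosed K] (b c f : K) :
    Good (X 0 * X 2 + C b * X 1 ^ 2 + C c * X 2 ^ 2 + C f * (X 1 * X 2) :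
      MvPolynomial (Fin 3) K) ![1, 0, 0] := by
  refine good_step ![![1, 0, 0], ![-f, 1, 0], ![-c, 0, 1]] ?_ rfl ?_ (n1 b)
  · simp [Matrix.det_fin_three]
  · simp only [map_add, map_mul, map_pow, H65.ssub_C, H65.ssub_X, Fin.sum_univ_three]
    simp
    ring

theorem n3 [CharZero K] [IsAlgClosed K] (b c d e f : K) (he : e ≠ 0) :
    Good (C b * X 1 ^ 2 + C c * X 2 ^ 2 + C d * (X 0 * X 1) + C e * (X 0 * X 2) +
      C f * (X 1 * X 2) : MvPolynomial (Fin 3) K) ![1, 0, 0] := by
  refine good_step ![![1, 0, 0], ![0, 1, -(d * e⁻¹)], ![0, 0, e⁻¹]] ?_ rfl ?_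
    (n2 (b + c * (d * e⁻¹) ^ 2 - f * (d * e⁻¹)) (c * e⁻¹ ^ 2)
      (f * e⁻¹ - 2 * c * (d * e⁻¹) * e⁻¹))
  · simpa [Matrix.det_fin_three] using he
  · have h1 : (C e * C e⁻¹ : MvPolynomial (Fin 3) K) = 1 := by
      rw [← C_mul, mul_inv_cancel₀ he, C_1]
    simp only [map_add, map_mul, map_pow, map_sub, H65.ssub_C, H65.ssub_X, Fin.sum_univ_three,
      map_ofNat]
    simp
    linear_combination (X 0 * X 2 - C d * X 0 * X 1) * h1

theorem n4 [CharZero K] [IsAlgClosed K] (b c f : K) (hc : c ≠ 0) :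
    Good (C b * X 1 ^ 2 + C c * X 2 ^ 2 + C f * (X 1 * X 2) :
      MvPolynomial (Fin 3) K) ![1, 0, 0] := by
  obtain ⟨δ, hδ⟩ := IsAlgClosed.exists_eq_mul_self (f ^ 2 - 4 * b * c)
  obtain ⟨r, s, h1, h2⟩ : ∃ r s : K, c * r * s = b ∧ -c * (r + s) = f := by
    refine ⟨(-f + δ) / (2 * c), (-f - δ) / (2 * c), ?_, ?_⟩
    · field_simp
      linear_combination hδ
    · field_simp
      ring
  by_cases hrs : r = s
  · refine good_step (q' := C c * X 2 ^ 2) ![![1, 0, 0], ![0, 1, r], ![0, 0, 1]] ?_ rfl ?_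
      (good_id hc (Or.inr (Or.inr (Or.inr rfl))))
    · simp [Matrix.det_fin_three]
    · rw [← h1, ← h2, ← hrs]
      simp only [map_add, map_mul, map_pow, map_neg, H65.ssub_C, H65.ssub_X, Fin.sum_univ_three]
      simp
      ring
  · have hw : (s - r) * (s - r)⁻¹ = 1 := mul_inv_cancel₀ (sub_ne_zero.2 fun h => hrs h.symm)
    obtain ⟨w, hw1⟩ : ∃ w, w = (s - r)⁻¹ := ⟨_, rfl⟩
    rw [← hw1] at hw
    refine good_step (q' := C c * (X 1 * X 2)) ![![1, 0, 0], ![0, -w, -(r * w)],
      ![0, w, 1 + r * w]] ?_ rfl ?_ (good_id hc (Or.inr (Or.inr (Or.inl rfl))))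
    · have h3 : w ≠ 0 := by
        intro h
        rw [h, mul_zero] at hw
        exact zero_ne_one hw
      have h4 : (Matrix.of ![![1, 0, 0], ![0, -w, -(r * w)], ![0, w, 1 + r * w]]).det = -w := by
        simp [Matrix.det_fin_three]
        ring
      rw [h4]
      exact neg_ne_zero.2 h3
    · have h5 : ((C s - C r) * C w : MvPolynomial (Fin 3) K) = 1 := by
        rw [← C_sub, ← C_mul, hw, C_1]
      rw [← h1, ← h2]
      simp only [map_add, map_mul, map_pow, map_neg, H65.ssub_C, H65.ssub_X, Fin.sum_univ_three]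
      simp
      linear_combination (C c * X 2 * (X 1 - X 2)) * h5

theorem good_all [CharZero K] [IsAlgClosed K] {q : MvPolynomial (Fin 3) K}
    (hq : q.IsHomogeneous 2) (hq0 : q ≠ 0) (h0 : eval ![1, 0, 0] q = 0) :
    Good q ![1, 0, 0] := by
  obtain ⟨a, b, c, d, e, f, h⟩ := quad hq
  have ha : a = 0 := by
    rw [h] at h0
    simpa using h0
  rw [ha, C_0, zero_mul, zero_add] at h
  -- swap of the last two coordinates
  have hsw : ∀ b c d e f : K, Good (C b * X 1 ^ 2 + C c * X 2 ^ 2 + C d * (X 0 * X 1) +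
      C e * (X 0 * X 2) + C f * (X 1 * X 2) : MvPolynomial (Fin 3) K) ![1, 0, 0] →
      Good (C c * X 1 ^ 2 + C b * X 2 ^ 2 + C e * (X 0 * X 1) +
      C d * (X 0 * X 2) + C f * (X 1 * X 2) : MvPolynomial (Fin 3) K) ![1, 0, 0] := by
    intro b c d e f hh
    refine good_step ![![1, 0, 0], ![0, 0, 1], ![0, 1, 0]] ?_ rfl ?_ hh
    · simp [Matrix.det_fin_three]
    · simp only [map_add, map_mul, map_pow, H65.ssub_C, H65.ssub_X, Fin.sum_univ_three]
      simp
      ring
  by_cases he : e = 0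
  · by_cases hd : d = 0
    · rw [hd, he] at h
      by_cases hc : c = 0
      · by_cases hb : b = 0
        · refine good_id (a := f) ?_ (Or.inr (Or.inr (Or.inl ?_)))
          · intro hf
            apply hq0
            rw [h, hc, hb, hf]
            simp
          · rw [h, hc, hb]
            simp
        · rw [h]
          refine hsw _ _ _ _ _ ?_
          have := n4 c b f hb
          simpa using this
      · rw [h]
        have := n4 b c f hc
        simpa using this
    · rw [h]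
      exact hsw _ _ _ _ _ (n3 _ _ _ _ _ hd)
  · rw [h]
    exact n3 _ _ _ _ _ he

/-- a basis starting with a given vector -/
theorem exists_basis {y : Fin 3 → K} (hy : y ≠ 0) :
    ∃ g : Fin 3 → Fin 3 → K, LinearIndependent K g ∧ g 0 = y := by
  obtain ⟨j, hj⟩ : ∃ j, y j ≠ 0 := by
    by_contra hcon
    push Not at hcon
    exact hy (funext hcon)
  fin_cases j
  · refine ⟨![y, ![0, 1, 0], ![0, 0, 1]], (li_iff _).2 ?_, rfl⟩
    simpa [Matrix.det_fin_three] using hj
  · refine ⟨![y, ![1, 0, 0], ![0, 0, 1]], (li_iff _).2 ?_, rfl⟩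
    simpa [Matrix.det_fin_three] using hj
  · refine ⟨![y, ![1, 0, 0], ![0, 1, 0]], (li_iff _).2 ?_, rfl⟩
    simpa [Matrix.det_fin_three] using hj

end

/-- Row QCL. -/
theorem qcl : QclStatement := by
  intro K _ _ _ q y hq hq0 hy h0
  obtain ⟨g, hg, rfl⟩ := exists_basis hy
  refine good_comp g hg (good_all (H65.ssub_hom g hq) (ssub_ne hg hq0) ?_)
  have h1 : (fun j => ∑ i, (![1, 0, 0] : Fin 3 → K) i * g i j) = g 0 := by
    funext j
    rw [Fin.sum_univ_three]
    simp
  rw [eval_ssub, h1]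
  exact h0

end Pool.Agent.T2.H8
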