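import Pool.Agent.Lib.MP_c7af3c_ag.T2.H8.Q

/-!
# MP_c7af3c_ag, project T2: the infinitesimal motions `kk` (helper8)

Row STAB of T2/IfaceB.lean: the space of the motions `e` of the plane with `(e * F)|plane` in
`q S^4` has dimension at least `15 + 15 - 28 = 2`, and such motions fix the plane, the point, the
conic `q` and `F|plane` modulo `q`.
-/

set_option autoImplicit false

namespace Pool.Agent.T2.H8

open MvPolynomial Pool.Agent.Gen Pool.Agent.Sharp Pool.Agent.Edge Pool.Agent.T2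
open Pool.Agent.Sharp.H75 (dco DG af lf)
open Pool.Agent.Edge.H65 (ssub)

section stab

variable {K : Type} [Field K]

/-- `e ↦ (e * F)|plane` -/
noncomputable def phi (D : D6 K) (P : Fin 3 → Fin 5 → K) :
    (Fin 3 → Fin 5 → K) →ₗ[K] MvPolynomial (Fin 3) K where
  toFun e := ∑ j, X j * ∑ p, C (e j p) * ssub P (pderiv p (D.F 0))
  map_add' e e' := by
    simp only [Pi.add_apply, map_add, add_mul, Finset.sum_add_distrib, mul_add]
  map_smul' c e := by
    rw [RingHom.id_apply, Finset.smul_sum]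
    refine Finset.sum_congr rfl fun j _ => ?_
    rw [← mul_smul_comm, Finset.smul_sum]
    congr 1
    refine Finset.sum_congr rfl fun p _ => ?_
    rw [Pi.smul_apply, Pi.smul_apply, smul_eq_mul, map_mul, smul_eq_C_mul, mul_assoc]

theorem phi_apply (D : D6 K) (P : Fin 3 → Fin 5 → K) (e : Fin 3 → Fin 5 → K) :
    phi D P e = ∑ j, X j * ∑ p, C (e j p) * ssub P (pderiv p (D.F 0)) := rfl

theorem mem_kk {D : D6 K} {P : Fin 3 → Fin 5 → K} {q : MvPolynomial (Fin 3) K}
    {e : Fin 3 → Fin 5 → K} : e ∈ kk D P q ↔ phi D P e ∈ mulS q 4 := Iff.rfl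

theorem phi_hom (D : D6 K) (P : Fin 3 → Fin 5 → K) (e : Fin 3 → Fin 5 → K) :
    (phi D P e).IsHomogeneous 6 := by
  rw [phi_apply]
  refine IsHomogeneous.sum _ _ _ fun j _ => ?_
  have h1 : (∑ p, C (e j p) * ssub P (pderiv p (D.F 0))).IsHomogeneous 5 := by
    refine IsHomogeneous.sum _ _ _ fun p _ => ?_
    have h2 := (isHomogeneous_C (Fin 3) (e j p)).mul
      (H65.ssub_hom P ((D.hom 0).pderiv (i := p)))
    rw [zero_add] at h2
    exact h2
  exact (isHomogeneous_X K j).mul h1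

/-- `15 + 15 - 28` -/
theorem two_le (D : D6 K) (P : Fin 3 → Fin 5 → K) {q : MvPolynomial (Fin 3) K}
    (hq : q.IsHomogeneous 2) (hq0 : q ≠ 0) : 2 ≤ Module.finrank K (kk D P q) := by
  have f4 : Module.Finite K (S3 K 4) := H65.finite_hom3 K 4
  have f6 : Module.Finite K (S3 K 6) := H65.finite_hom3 K 6
  let ψ1 : ((Fin 3 → Fin 5 → K) × S3 K 4) →ₗ[K] MvPolynomial (Fin 3) K :=
    (phi D P).coprod (-((LinearMap.mulLeft K q).comp (S3 K 4).subtype))
  have hψ1 : ∀ u, ψ1 u = phi D P u.1 - q * (u.2 : MvPolynomial (Fin 3) K) := by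
    intro u
    change phi D P u.1 + -(q * (u.2 : MvPolynomial (Fin 3) K)) = _
    rw [sub_eq_add_neg]
  have hm : ∀ u, ψ1 u ∈ S3 K 6 := by
    intro u
    rw [hψ1]
    exact (S3 K 6).sub_mem (phi_hom D P u.1) (hq.mul u.2.2)
  let ψ : ((Fin 3 → Fin 5 → K) × S3 K 4) →ₗ[K] S3 K 6 := ψ1.codRestrict _ hm
  have hker : ∀ u, u ∈ LinearMap.ker ψ ↔ phi D P u.1 = q * (u.2 : MvPolynomial (Fin 3) K) := by
    intro u
    rw [LinearMap.mem_ker, ← sub_eq_zero (a := phi D P u.1), ← hψ1]
    exact Subtype.ext_iff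
  have h1 := LinearMap.finrank_range_add_finrank_ker ψ
  have h2 : Module.finrank K (LinearMap.range ψ) ≤ Module.finrank K (S3 K 6) :=
    Submodule.finrank_le _
  rw [H65.finrank_hom3] at h2
  rw [Module.finrank_prod, H65.finrank_hom3] at h1
  have h15 : Module.finrank K (Fin 3 → Fin 5 → K) = 15 := by
    rw [Module.finrank_pi_fintype]
    simp
  rw [h15] at h1
  have c6 : (6 + 2).choose 2 = 28 := by decide
  have c4 : (4 + 2).choose 2 = 15 := by decide
  rw [c6] at h2
  rw [c4] at h1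
  have h3 : 2 ≤ Module.finrank K (LinearMap.ker ψ) := by omega
  refine h3.trans ?_
  let j : LinearMap.ker ψ →ₗ[K] kk D P q :=
    ((LinearMap.fst K _ _).comp (LinearMap.ker ψ).subtype).codRestrict _ (by
      intro u
      rw [mem_kk]
      exact mem_mulS.2 ⟨u.1.2, u.1.2.2, ((hker u.1).1 u.2).symm⟩)
  refine LinearMap.finrank_le_finrank_of_injective (f := j) ?_
  intro u v huv
  have hu1 : u.1.1 = v.1.1 := congrArg Subtype.val huv
  have hu2 := (hker u.1).1 u.2
  have hv2 := (hker v.1).1 v.2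
  rw [hu1, hv2] at hu2
  exact Subtype.ext (Prod.ext hu1 (Subtype.ext (mul_left_cancel₀ hq0 hu2.symm)))

variable {D : D6 K} {x : Fin 5 → K} {t : Fin 3 → Fin 5} {P : Fin 3 → Fin 5 → K}

/-- a matrix with `E P_i = e_i` -/
def ext (t : Fin 3 → Fin 5) (e : Fin 3 → Fin 5 → K) (f q : Fin 5) : K :=
  ∑ i, if q = t i then e i f else 0

theorem ext_dot (t : Fin 3 → Fin 5) (e : Fin 3 → Fin 5 → K) (z : Fin 5 → K) (f : Fin 5) :
    ∑ q, ext t e f q * z q = ∑ i, e i f * z (t i) := by
  unfold ext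
  simp only [Finset.sum_mul]
  rw [Finset.sum_comm]
  refine Finset.sum_congr rfl fun i _ => ?_
  rw [Finset.sum_eq_single (t i)]
  · rw [if_pos rfl]
  · intro q _ hq
    rw [if_neg hq, zero_mul]
  · intro h; exact absurd (Finset.mem_univ _) h

theorem ext_P (h : ∀ i j, P i (t j) = if i = j then 1 else 0) (e : Fin 3 → Fin 5 → K)
    (i : Fin 3) (f : Fin 5) : ∑ q, ext t e f q * P i q = e i f := by
  rw [ext_dot, Finset.sum_eq_single i]
  · rw [h, if_pos rfl, mul_one]
  · intro j _ hj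
    rw [h, if_neg (Ne.symm hj), mul_zero]
  · intro h; exact absurd (Finset.mem_univ _) h

/-- the restriction of `E F` -/
theorem ssub_af (E : Fin 5 → Fin 5 → K) :
    ssub P (af E (D.F 0)) = phi D P fun i f => ∑ q, E f q * P i q := by
  rw [phi_apply]
  unfold af
  rw [map_sum]
  simp only [map_mul, ssub_lf]
  simp only [Finset.sum_mul, Finset.mul_sum]
  rw [Finset.sum_comm]
  refine Finset.sum_congr rfl fun i _ => Finset.sum_congr rfl fun p _ => ?_
  ring

theorem af_ssub (L : Fin 3 → Fin 3 → K) :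
    af L (ssub P (D.F 0)) = phi D P fun i f => ∑ j, L j i * P j f := by
  rw [phi_apply]
  unfold af
  have h2 : ∀ j : Fin 3, H75.lf (L j) * pderiv j (ssub P (D.F 0)) =
      ∑ i, ∑ p, X i * (C (L j i * P j p) * ssub P (pderiv p (D.F 0))) := by
    intro j
    rw [H65.pderiv_ssub]
    unfold H75.lf
    rw [Finset.sum_mul_sum]
    refine Finset.sum_congr rfl fun i _ => Finset.sum_congr rfl fun p _ => ?_
    rw [map_mul]
    ring
  rw [Finset.sum_congr rfl fun j _ => h2 j, Finset.sum_comm]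
  refine Finset.sum_congr rfl fun i _ => ?_
  rw [Finset.sum_comm, Finset.mul_sum]
  refine Finset.sum_congr rfl fun p _ => ?_
  rw [← Finset.mul_sum, ← Finset.sum_mul, map_sum]

end stab

/-- Row STAB. -/
theorem stab : StabStatement := by
  intro hU hB hC hI hQ K _ _ _ D x t P h hR q hq hq0 hqR
  refine ⟨two_le D P hq hq0, fun e he => ?_⟩
  rw [mem_kk] at he
  have hE : ∀ i f, ∑ r, ext t e f r * P i r = e i f := fun i f => ext_P h.Pt e i f
  have hs : ssub P (af (ext t e) (D.F 0)) = phi D P e := by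
    rw [ssub_af]
    congr 1
    funext i f
    exact hE i f
  have hEF : (af (ext t e) (D.F 0)).IsHomogeneous 6 := H75.af_hom _ (D.hom 0)
  have hm : ssub P (af (ext t e) (D.F 0)) ∈ mulS q 4 := by rw [hs]; exact he
  have hF : Fix D x P (af (ext t e) (D.F 0)) := (fix_iff h hEF).2 (hqR hm)
  obtain ⟨c1, c2⟩ := hC K D x t P h (ext t e)
  have e1 : ∀ i f, e i f = ∑ j, mat t P (ext t e) j i * P j f := by
    intro i f
    rw [← c2 i f, V_eq, hF.2, zero_add, hE]
  refine ⟨mat t P (ext t e), e1, ⟨∑ q, ext t e (t 0) q * x q, fun j => ?_⟩, ?_, ?_⟩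
  · have h1 := c1 (t j)
    rw [V_eq, hF.1, zero_add] at h1
    rw [← h1, ext_dot]
    refine Finset.sum_congr rfl fun i _ => ?_
    unfold mat
    rw [hE]
  · obtain ⟨a, ha⟩ := hI hU hB K D x t P h hR q hq hq0 hqR _ hEF hm
    obtain ⟨b, hb⟩ := hQ hU hC K D x t P h hR q hq hq0 hqR (ext t e)
    refine ⟨a - b, ?_⟩
    rw [ha] at hb
    rw [C_sub, sub_mul, ← hb]
    ring
  · rw [af_ssub]
    have h2 : (fun i f => ∑ j, mat t P (ext t e) j i * P j f) = e := by
      funext i f
      exact (e1 i f).symm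
    rw [h2]
    exact he

end Pool.Agent.T2.H8
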